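import Pool.Agent.Helper58.Vol.Proof

open MeasureTheory Pool.Agent.Helper58.Vol

namespace Pool.Agent.Results.MP_2428c5_an.SupBallVolume

/-- **Theorem.**  For every `d ≥ 3`,
`vol(B_{ΔQ_n}(L_∞))^{1/N} ≍ (2^n n^d)^{-1/2}`, `N = 2|ΔQ_n|`, with constants depending only on
`d`. -/
theorem result (d : ℕ) (hd : 3 ≤ d) :
    ∃ c C : ℝ, 0 < c ∧ 0 < C ∧ ∀ n : ℕ, 1 ≤ n →
      c * ((2 : ℝ) ^ n * (n : ℝ) ^ d) ^ (-(1 / 2) : ℝ) ≤
          (volume (unitBall (layer d n))).toReal ^ (1 / (2 * ((layer d n).card : ℝ))) ∧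
        (volume (unitBall (layer d n))).toReal ^ (1 / (2 * ((layer d n).card : ℝ))) ≤
          C * ((2 : ℝ) ^ n * (n : ℝ) ^ d) ^ (-(1 / 2) : ℝ) :=
  main d hd

end Pool.Agent.Results.MP_2428c5_an.SupBallVolume
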